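import Pool.Agent.Helper96.GP.NDefs

/-!
# Block G3: weights of lines of the grid space
-/

open Finset
open scoped Classical

namespace GPG

noncomputable section

theorem g3_rho (n t : ℕ) (ht : t < n ^ 2) : 0 ≤ rho n t ∧ rho n t ≤ 1999 / 1000 := by
  have hn : 0 < n := by
    rcases Nat.eq_zero_or_pos n with h | h
    · subst h; simp at ht
    · exact h
  have h1 : t / n < n := by
    rw [Nat.div_lt_iff_lt_mul hn, ← pow_two]
    exact ht
  have hn' : (0 : ℝ) < n := by exact_mod_cast hn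
  unfold rho
  set y : ℝ := (((t / n : ℕ) : ℝ) + 1 / 2) / n with hy
  have h2 : ((t / n : ℕ) : ℝ) + 1 ≤ n := by exact_mod_cast h1
  have hy0 : 0 ≤ y := by rw [hy]; positivity
  have hy1 : y ≤ 1 := by
    rw [hy, div_le_one hn']
    linarith
  unfold rhoh
  constructor
  · nlinarith [mul_nonneg hy0 (sub_nonneg.2 hy1), mul_nonneg (mul_nonneg hy0 hy0) (sub_nonneg.2 hy1),
      mul_nonneg (mul_nonneg hy0 (sub_nonneg.2 hy1)) (sub_nonneg.2 hy1)]
  · nlinarith [mul_nonneg hy0 (sub_nonneg.2 hy1), mul_nonneg (mul_nonneg hy0 hy0) (sub_nonneg.2 hy1),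
      mul_nonneg (mul_nonneg hy0 (sub_nonneg.2 hy1)) (sub_nonneg.2 hy1)]

theorem g3_lam_nonneg {n : ℕ} {V : Finset ℕ} (hV : V ⊆ range (n ^ 2)) {q : ℝ} (hq : 0 < q)
    (v : ℕ) : 0 ≤ lamV n V q v := by
  unfold lamV
  split_ifs with h
  · have := (g3_rho n v (mem_range.1 (hV h))).1
    positivity
  · exact le_rfl

theorem g3_lam_le {n : ℕ} {V : Finset ℕ} (hV : V ⊆ range (n ^ 2)) {q : ℝ} (hq : 0 < q)
    (v : ℕ) : lamV n V q v ≤ 1999 / 1000 / (q * n) := by
  unfold lamV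
  split_ifs with h
  · have := (g3_rho n v (mem_range.1 (hV h))).2
    gcongr
  · positivity

/-- the lines of `gridLS` through two points which are not in `pre` -/
theorem g3_line {n M : ℕ} {V : Finset ℕ} {i : Finset ℕ} (hi : i ∈ gls n V M)
    (hp : ¬ gpre n M i) {a b : ℕ} (hab : a ≠ b) (ha : a ∈ i) (hb : b ∈ i) :
    a ∈ V ∧ b ∈ V ∧ M < pd n a b ∧ i = V ∩ gline n a b := by
  obtain ⟨h1, h2, h3⟩ := gls_spec hi hab ha hb
  rcases h3 with h3 | h3
  · exact ⟨h1, h2, h3.1, h3.2⟩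
  · exact absurd ⟨a, ha, b, hb, hab, h3.1⟩ hp

theorem r_nonneg (n M : ℕ) (V : Finset ℕ) (hV : V ⊆ range (n ^ 2)) (q : ℝ) (hq : 0 < q)
    (u y : ℕ) : 0 ≤ (gridLS n V M).r (lamV n V q) u y :=
  sum_nonneg fun _ _ => sum_nonneg fun _ _ => g3_lam_nonneg hV hq _

/-- `r_le` from the bound for the number of points of a line -/
theorem r_le_of (n M : ℕ) (V : Finset ℕ) (hV : V ⊆ range (n ^ 2)) (q : ℝ) (hq : 0 < q)
    (hn : 0 < n) (u y : ℕ) (huy : u ≠ y)
    (hcard : u < n ^ 2 → y < n ^ 2 → ((gline n u y).card : ℝ) ≤ 2 * n / pd n u y) :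
    (gridLS n V M).r (lamV n V q) u y ≤
      if u ∈ V ∧ y ∈ V ∧ M < pd n u y then 4 / (q * pd n u y) else 0 := by
  unfold LS.r
  split_ifs with h
  · obtain ⟨hu, hy, hM⟩ := h
    have hn' : (0 : ℝ) < n := by exact_mod_cast hn
    have hp : (0 : ℝ) < pd n u y := by
      have : 0 < pd n u y := by omega
      exact_mod_cast this
    obtain ⟨F, hF⟩ : ∃ F, F = (gridLS n V M).ls.filter
        (fun j => ¬ (gridLS n V M).pre j ∧ u ∈ j ∧ y ∈ j) := ⟨_, rfl⟩
    rw [← hF]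
    have hsub : F ⊆ {V ∩ gline n u y} := by
      intro j hj
      rw [hF, mem_filter] at hj
      rw [mem_singleton]
      exact (g3_line hj.1 hj.2.1 huy hj.2.2.1 hj.2.2.2).2.2.2
    calc ∑ j ∈ F, ∑ x ∈ j, lamV n V q x
        ≤ ∑ j ∈ {V ∩ gline n u y}, ∑ x ∈ j, lamV n V q x :=
          sum_le_sum_of_subset_of_nonneg hsub fun _ _ _ =>
            sum_nonneg fun _ _ => g3_lam_nonneg hV hq _
      _ = ∑ x ∈ V ∩ gline n u y, lamV n V q x := by rw [sum_singleton]
      _ ≤ ∑ x ∈ V ∩ gline n u y, (1999 / 1000 / (q * n) : ℝ) :=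
          sum_le_sum fun x _ => g3_lam_le hV hq x
      _ = ((V ∩ gline n u y).card : ℝ) * (1999 / 1000 / (q * n)) := by
          rw [sum_const, nsmul_eq_mul]
      _ ≤ (2 * n / pd n u y) * (1999 / 1000 / (q * n)) := by
          apply mul_le_mul_of_nonneg_right _ (by positivity)
          refine le_trans ?_ (hcard (mem_range.1 (hV hu)) (mem_range.1 (hV hy)))
          exact_mod_cast card_le_card inter_subset_right
      _ = (2 * (1999 / 1000)) / (q * pd n u y) := by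
          field_simp
      _ ≤ 4 / (q * pd n u y) := by
          apply div_le_div_of_nonneg_right _ (by positivity)
          norm_num
  · apply le_of_eq
    apply sum_eq_zero
    intro j hj
    rw [mem_filter] at hj
    have := g3_line hj.1 hj.2.1 huy hj.2.2.1 hj.2.2.2
    exact absurd ⟨this.1, this.2.1, this.2.2.1⟩ h

/-- H2 -/
theorem Pv_le (n M : ℕ) (V : Finset ℕ) (hV : V ⊆ range (n ^ 2)) (q : ℝ) (hq : 0 < q) (v : ℕ)
    (hv : v < n ^ 2) :
    ∑ p ∈ (gridLS n V M).Pv v, lamV n V q p.1 * lamV n V q p.2 ≤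
      XX (Qup n M v) (fun p => rho n p.1 * rho n p.2) V / (q * n) ^ 2 := by
  unfold XX
  rw [sum_div]
  have hsub : (gridLS n V M).Pv v ⊆
      (Qup n M v).filter (fun q => q.1 ∈ V ∧ q.2 ∈ V) := by
    intro p hp
    unfold LS.Pv at hp
    rw [mem_filter] at hp
    obtain ⟨h1, h2, i, hi, hpre, hvi, h1i, h2i⟩ := hp
    rw [mem_product, mem_range, mem_range] at h1
    obtain ⟨a1, a2, a3, a4⟩ := g3_line hi hpre (by omega : v ≠ p.1) hvi h1i
    obtain ⟨b1, b2, -, -⟩ := g3_line hi hpre (by omega : v ≠ p.2) hvi h2i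
    rw [mem_filter]
    refine ⟨?_, a2, b2⟩
    unfold Qup
    rw [mem_filter, mem_product, mem_range, mem_range]
    refine ⟨h1, h2, ?_, a3⟩
    rw [a4, mem_inter, mem_gline] at h2i
    exact h2i.2.2
  calc ∑ p ∈ (gridLS n V M).Pv v, lamV n V q p.1 * lamV n V q p.2
      ≤ ∑ p ∈ (Qup n M v).filter (fun q => q.1 ∈ V ∧ q.2 ∈ V),
          lamV n V q p.1 * lamV n V q p.2 :=
        sum_le_sum_of_subset_of_nonneg hsub fun _ _ _ =>
          mul_nonneg (g3_lam_nonneg hV hq _) (g3_lam_nonneg hV hq _)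
    _ = _ := by
        apply sum_congr rfl
        intro p hp
        rw [mem_filter] at hp
        unfold lamV
        rw [if_pos hp.2.1, if_pos hp.2.2, div_mul_div_comm, pow_two]

/-- H3 -/
theorem pre_le (n M : ℕ) (V : Finset ℕ) (hV : V ⊆ range (n ^ 2)) (q : ℝ) (hq : 0 < q)
    (hn : 0 < n)
    (hh : ∀ a < n ^ 2, ∀ b < n ^ 2, a ≠ b → ((V ∩ ghalf n a b).card : ℝ) ≤ q * (0.5001 * n))
    (i : Finset ℕ) (hi : i ∈ gls n V M) (hp : gpre n M i) :
    ∑ z ∈ i, lamV n V q z ≤ 0.9998 := by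
  obtain ⟨a, ha, b, hb, hab, hM⟩ := hp
  obtain ⟨h1, h2, h3⟩ := gls_spec hi hab ha hb
  have h4 : i = V ∩ ghalf n a b := by
    rcases h3 with h3 | h3
    · exact absurd h3.1 (not_lt.2 hM)
    · exact h3.2.2
  have hn' : (0 : ℝ) < n := by exact_mod_cast hn
  calc ∑ z ∈ i, lamV n V q z ≤ ∑ z ∈ i, (1999 / 1000 / (q * n) : ℝ) :=
        sum_le_sum fun x _ => g3_lam_le hV hq x
    _ = (i.card : ℝ) * (1999 / 1000 / (q * n)) := by rw [sum_const, nsmul_eq_mul]
    _ ≤ (q * (0.5001 * n)) * (1999 / 1000 / (q * n)) := by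
        apply mul_le_mul_of_nonneg_right _ (by positivity)
        rw [h4]
        exact hh a (mem_range.1 (hV h1)) b (mem_range.1 (hV h2)) hab
    _ = 0.5001 * (1999 / 1000) := by field_simp
    _ ≤ 0.9998 := by norm_num

end

end GPG
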