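import Pool.Agent.Helper40.GP.G3
import Pool.Agent.Helper31.GP.G2

/-!
# Block G3: `r_le`
-/

open Finset
open scoped Classical

namespace GPG

noncomputable section

/-- `r` of the grid space -/
theorem r_le (n M : ℕ) (V : Finset ℕ) (hV : V ⊆ range (n ^ 2)) (q : ℝ) (hq : 0 < q) (hn : 0 < n)
    (u y : ℕ) (huy : u ≠ y) :
    (gridLS n V M).r (lamV n V q) u y ≤
      if u ∈ V ∧ y ∈ V ∧ M < pd n u y then 4 / (q * pd n u y) else 0 :=
  r_le_of n M V hV q hq hn u y huy (card_gline n u y huy)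

end

end GPG
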